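import Pool.Agent.Lib.MP_10e784_agQV.A1
import Pool.Agent.Lib.MP_10e784_agTR.TRInc

/-!
# Squarefree integers whose prime divisors have a fixed nonsquare as a square
-/

set_option autoImplicit false

namespace QW

open Finset Polynomial Filter

private theorem R1_inc (a : ℤ) (ha : ¬ IsSquare a) :
    ∃ c C : ℝ, 0 < c ∧ TR.Inc {p | p.Prime ∧ ¬ IsSquare ((a : ℤ) : ZMod p)} c C := by
  have hd : ¬ ∃ B : ℚ[X], TW.qq (X : ℤ[X]) ∣ (C a : ℤ[X]).map (Int.castRingHom ℚ) - B ^ 2 := by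
    rintro ⟨P, hP⟩
    have h1 : TW.qq (X : ℤ[X]) = X := by rw [TW.qq, Polynomial.map_X]
    rw [h1, X_dvd_iff, coeff_zero_eq_eval_zero, Polynomial.map_C, eval_sub, eval_C, eval_pow] at hP
    have h2 : (a : ℚ) = P.eval 0 * P.eval 0 := by
      have h3 : (Int.castRingHom ℚ) a = (a : ℚ) := rfl
      rw [h3] at hP
      linarith
    exact ha (Rat.isSquare_intCast_iff.1 ⟨_, h2⟩)
  have hirr : Irreducible ((X : ℤ[X]).map (Int.castRingHom ℚ)) := by
    rw [Polynomial.map_X]
    exact Polynomial.irreducible_X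
  obtain ⟨c, K, hc, hinc⟩ := TR.nonres_inc X monic_X hirr (C a) hd
  refine ⟨c, K, hc, ?_⟩
  have he : {p : ℕ | p.Prime ∧ ¬ IsSquare ((a : ℤ) : ZMod p)} =
      {p | p.Prime ∧ ∃ t : ZMod p, (TW.red p X).eval t = 0 ∧ ¬ IsSquare ((TW.red p (C a)).eval t)} := by
    have h3 : ∀ (p : ℕ) (t : ZMod p), (TW.red p (C a)).eval t = ((a : ℤ) : ZMod p) := by
      intro p t
      rw [TW.red, Polynomial.map_C, eval_C]
      rfl
    ext p
    simp only [Set.mem_ofPred_eq, h3]
    constructor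
    · rintro ⟨h1, h2⟩
      refine ⟨h1, 0, ?_, h2⟩
      rw [TW.red, Polynomial.map_X, eval_X]
    · rintro ⟨h1, t, -, h2⟩
      exact ⟨h1, h2⟩
  rw [he]
  exact hinc

open Classical in
/-- the sum of the reciprocals of the primes with `a` as a nonsquare tends to infinity -/
private theorem R1_sum (a : ℤ) (ha : ¬ IsSquare a) (M : ℕ) (hM : M ≠ 0) (R : Set ℕ)
    (hR : ∀ p, p ∈ R ↔ p.Prime ∧ ¬ p ∣ M ∧ ¬ IsSquare ((a : ℤ) : ZMod p)) :
    Tendsto (fun N : ℕ => ∑ p ∈ (Icc 1 N).filter (fun p => p.Prime ∧ p ∈ R), (1 : ℝ) / p) atTop atTop := by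
  obtain ⟨c, K, hc, hinc⟩ := R1_inc a ha
  obtain ⟨T, hT⟩ : ∃ T : Set ℕ, T = {p | p.Prime ∧ ¬ IsSquare ((a : ℤ) : ZMod p)} := ⟨_, rfl⟩
  rw [← hT] at hinc
  have hlow : ∀ N : ℕ, 2 ≤ N → c * (Real.log (Real.log N) - Real.log (Real.log 2)) - K - M ≤
      ∑ p ∈ (Icc 1 N).filter (fun p => p.Prime ∧ p ∈ R), (1 : ℝ) / p := by
    intro N hN
    have h1 := hinc 2 N le_rfl (by exact_mod_cast hN)
    have h0 : 0 ≤ PT.PS (PT.ind T) 2 := by
      unfold PT.PS
      refine Finset.sum_nonneg fun p _ => div_nonneg ?_ (Nat.cast_nonneg _)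
      unfold PT.ind
      split_ifs <;> norm_num
    have h2 : PT.PS (PT.ind T) N ≤ ∑ p ∈ (Icc 1 N).filter
        (fun p => p.Prime ∧ p ∈ R), (1 : ℝ) / p + M := by
      unfold PT.PS
      rw [Nat.floor_natCast]
      have h3 : ∑ p ∈ (Icc 1 N).filter Nat.Prime, PT.ind T p / p ≤
          ∑ p ∈ (Icc 1 N).filter Nat.Prime, ((if p ∈ R then (1 : ℝ) / p else 0) + if p ∣ M then (1 : ℝ) else 0) := by
        refine Finset.sum_le_sum fun p hp => ?_
        have hpp := (Finset.mem_filter.1 hp).2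
        have hp0 : (0 : ℝ) < p := by exact_mod_cast hpp.pos
        have hp1 : (1 : ℝ) / p ≤ 1 := by
          rw [div_le_one hp0]
          exact_mod_cast hpp.one_lt.le
        unfold PT.ind
        by_cases hpT : p ∈ T
        · rw [if_pos hpT]
          rw [hT] at hpT
          by_cases hpM : p ∣ M
          · rw [if_pos hpM]
            split_ifs
            · have : (0 : ℝ) ≤ 1 / p := by positivity
              linarith
            · linarith
          · rw [if_neg hpM, if_pos ((hR p).2 ⟨hpp, hpM, hpT.2⟩), add_zero]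
        · rw [if_neg hpT, zero_div]
          refine add_nonneg ?_ ?_ <;> split_ifs <;> positivity
      refine h3.trans ?_
      rw [Finset.sum_add_distrib]
      refine add_le_add ?_ ?_
      · rw [← Finset.sum_filter, Finset.filter_filter]
      · rw [Finset.sum_boole]
        have h4 : (((Icc 1 N).filter Nat.Prime).filter fun p => p ∣ M) ⊆ M.divisors := by
          intro p hp
          rw [Nat.mem_divisors]
          exact ⟨(Finset.mem_filter.1 hp).2, hM⟩
        have h5 := (Finset.card_le_card h4).trans (Nat.card_divisors_le_self M)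
        exact_mod_cast h5
    linarith
  have hloglog : Tendsto (fun N : ℕ => c * (Real.log (Real.log N) - Real.log (Real.log 2)) - K - M) atTop atTop := by
    have h1 : Tendsto (fun N : ℕ => Real.log (Real.log N)) atTop atTop :=
      Real.tendsto_log_atTop.comp (Real.tendsto_log_atTop.comp tendsto_natCast_atTop_atTop)
    have h2 : Tendsto (fun N : ℕ => c * Real.log (Real.log N)) atTop atTop := h1.const_mul_atTop hc
    have h3 := tendsto_atTop_add_const_right atTop (-(c * Real.log (Real.log 2)) - K - M) h2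
    refine h3.congr fun N => ?_
    ring
  exact tendsto_atTop_mono' atTop (eventually_atTop.2 ⟨2, hlow⟩) hloglog

/-- For a nonsquare integer `a` almost no squarefree integer has `a` as a square modulo all its prime divisors outside `M`. -/
theorem res_o (a : ℤ) (ha : ¬ IsSquare a) (M : ℕ) (hM : M ≠ 0) :
    Tendsto (fun N : ℕ => (Nat.card {D : ℤ // Squarefree D ∧ |D| ≤ (N : ℤ) ∧
      ∀ p : ℕ, p.Prime → (p : ℤ) ∣ D → ¬ p ∣ M → IsSquare ((a : ℤ) : ZMod p)} : ℝ) / N) atTop (nhds 0) := by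
  classical
  obtain ⟨C, hC, hall⟩ := QV.hall_excl
  obtain ⟨R, hR⟩ : ∃ R : Set ℕ, R = {p : ℕ | p.Prime ∧ ¬ p ∣ M ∧ ¬ IsSquare ((a : ℤ) : ZMod p)} := ⟨_, rfl⟩
  have hsum := R1_sum a ha M hM R (fun p => by rw [hR]; exact Iff.rfl)
  have hlim : Tendsto (fun N : ℕ => 2 * C * Real.exp (-∑ p ∈ (Icc 1 N).filter (fun p => p.Prime ∧ p ∈ R), (1 : ℝ) / p))
      atTop (nhds 0) := by
    have h1 := (Real.tendsto_exp_neg_atTop_nhds_zero.comp hsum).const_mul (2 * C)
    rw [mul_zero] at h1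
    exact h1
  refine squeeze_zero' (Eventually.of_forall fun N => by positivity) ?_ hlim
  refine eventually_atTop.2 ⟨2, fun N hN => ?_⟩
  have hN0 : (0 : ℝ) < N := by
    have : 0 < N := by omega
    exact_mod_cast this
  rw [div_le_iff₀ hN0]
  have h1 := hall R N hN
  set S := (Icc 1 N).filter fun n => Squarefree n ∧ ∀ p : ℕ, p.Prime → p ∣ n → p ∉ R with hS
  have h2 : Nat.card {D : ℤ // Squarefree D ∧ |D| ≤ (N : ℤ) ∧
      ∀ p : ℕ, p.Prime → (p : ℤ) ∣ D → ¬ p ∣ M → IsSquare ((a : ℤ) : ZMod p)} ≤ 2 * S.card := by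
    have hinj : Function.Injective (fun D : {D : ℤ // Squarefree D ∧ |D| ≤ (N : ℤ) ∧
        ∀ p : ℕ, p.Prime → (p : ℤ) ∣ D → ¬ p ∣ M → IsSquare ((a : ℤ) : ZMod p)} =>
        ((decide (0 ≤ D.1), ⟨D.1.natAbs, by
          obtain ⟨D, h3, h4, h5⟩ := D
          rw [hS, Finset.mem_filter, Finset.mem_Icc]
          refine ⟨⟨Nat.one_le_iff_ne_zero.2 (Int.natAbs_ne_zero.2 h3.ne_zero), ?_⟩, Int.squarefree_natAbs.2 h3, ?_⟩
          · have : (D.natAbs : ℤ) ≤ N := by rwa [Int.natCast_natAbs]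
            exact_mod_cast this
          · intro p hp hpD hpR
            rw [hR] at hpR
            exact hpR.2.2 (h5 p hp (Int.natCast_dvd.2 hpD) hpR.2.1)⟩) : Bool × S)) := by
      rintro ⟨D, h3⟩ ⟨D', h4⟩ h
      simp only [Prod.mk.injEq, Subtype.mk.injEq, decide_eq_decide] at h
      refine Subtype.ext ?_
      show D = D'
      obtain ⟨h5, h6⟩ := h
      omega
    have h3 := Nat.card_le_card_of_injective _ hinj
    have e1 : Nat.card Bool = 2 := by rw [Nat.card_eq_fintype_card, Fintype.card_bool]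
    have e2 : Nat.card S = S.card := by rw [Nat.card_eq_fintype_card, Fintype.card_coe]
    rw [Nat.card_prod, e1, e2] at h3
    exact h3
  have h3 : (Nat.card {D : ℤ // Squarefree D ∧ |D| ≤ (N : ℤ) ∧
      ∀ p : ℕ, p.Prime → (p : ℤ) ∣ D → ¬ p ∣ M → IsSquare ((a : ℤ) : ZMod p)} : ℝ) ≤ 2 * (S.card : ℝ) := by
    exact_mod_cast h2
  refine h3.trans ?_
  have h4 : 2 * (S.card : ℝ) ≤ 2 * (C * N * Real.exp (-∑ p ∈ (Icc 1 N).filter (fun p => p.Prime ∧ p ∈ R), (1 : ℝ) / p)) :=
    mul_le_mul_of_nonneg_left h1 (by norm_num)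
  refine h4.trans (le_of_eq ?_)
  ring

end QW
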