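import Mathlib

/-!
# Divisors of the twists: the case of a quadratic factor with a root in all the fields
-/

set_option autoImplicit false

namespace QW

open Polynomial

/-- the product of the denominators of the coefficients -/
noncomputable def gd (P : ℚ[X]) : ℕ := ∏ n ∈ P.support, (P.coeff n).den

theorem gd_ne (P : ℚ[X]) : gd P ≠ 0 := Finset.prod_ne_zero_iff.2 fun _ _ => Rat.den_ne_zero _

theorem gd_coeff {p : ℕ} [hp : Fact p.Prime] {P : ℚ[X]} (h : ¬ p ∣ gd P) (n : ℕ) :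
    ‖((P.coeff n : ℚ) : ℚ_[p])‖ ≤ 1 := by
  by_cases hn : n ∈ P.support
  · refine Padic.norm_rat_le_one fun h1 => h (h1.trans ?_)
    exact Finset.dvd_prod_of_mem (fun n => (P.coeff n).den) hn
  · rw [notMem_support_iff.1 hn, Rat.cast_zero, norm_zero]
    exact zero_le_one

theorem gd_eval {p : ℕ} [hp : Fact p.Prime] {P : ℚ[X]} (h : ¬ p ∣ gd P) {x : ℚ} (hx : ‖(x : ℚ_[p])‖ ≤ 1) :
    ‖((P.eval x : ℚ) : ℚ_[p])‖ ≤ 1 := by
  have h1 : ((P.eval x : ℚ) : ℚ_[p]) ∈ PadicInt.subring p := by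
    rw [eval_eq_sum_range, Rat.cast_sum]
    refine Subring.sum_mem _ fun n _ => ?_
    rw [Rat.cast_mul, Rat.cast_pow]
    exact Subring.mul_mem _ (gd_coeff h n) (Subring.pow_mem _ hx n)
  exact h1

private theorem R2_zpow {p : ℕ} [hp : Fact p.Prime] (x : ℚ_[p]) (hx : x ≠ 0) : ∃ k : ℤ, ‖x‖ = (p : ℝ) ^ k :=
  ⟨-x.valuation, Padic.norm_eq_zpow_neg_valuation hx⟩

private theorem R2_inj {p : ℕ} [hp : Fact p.Prime] {a b : ℤ} (h : (p : ℝ) ^ a = (p : ℝ) ^ b) : a = b :=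
  zpow_right_injective₀ (by exact_mod_cast hp.out.pos) (by exact_mod_cast hp.out.ne_one) h

private theorem R2_D {p : ℕ} [hp : Fact p.Prime] {D : ℤ} (hD : Squarefree D) (hpD : (p : ℤ) ∣ D) :
    ‖((D : ℤ) : ℚ_[p])‖ = (p : ℝ) ^ (-1 : ℤ) := by
  obtain ⟨E, rfl⟩ := hpD
  have hE : ¬ (p : ℤ) ∣ E := by
    rintro ⟨F, rfl⟩
    have h1 := hD (p : ℤ) ⟨F, by ring⟩
    exact (Nat.prime_iff_prime_int.1 hp.out).not_isUnit h1
  have h1 : ‖((E : ℤ) : ℚ_[p])‖ = 1 := by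
    refine le_antisymm (Padic.norm_int_le_one E) ?_
    by_contra h
    exact hE ((Padic.norm_intCast_lt_one_iff).1 (not_le.1 h))
  push_cast
  rw [norm_mul, h1, mul_one, Padic.norm_p, zpow_neg_one]

private theorem R2_big {p : ℕ} [hp : Fact p.Prime] {f : ℚ[X]} (hg : ¬ p ∣ gd f) (hl : ‖((f.leadingCoeff : ℚ) : ℚ_[p])‖ = 1)
    {x : ℚ} (hx : 1 < ‖(x : ℚ_[p])‖) : ‖((f.eval x : ℚ) : ℚ_[p])‖ = ‖(x : ℚ_[p])‖ ^ f.natDegree := by
  have hx0 : x ≠ 0 := by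
    rintro rfl
    rw [Rat.cast_zero, norm_zero] at hx
    linarith
  have hn0 : 0 < ‖(x : ℚ_[p])‖ := by linarith
  have : Invertible x := invertibleOfNonzero hx0
  have h1 := Polynomial.eval₂_reverse_mul_pow (RingHom.id ℚ) x f
  have h2 : f.eval x = (f.reverse.eval x⁻¹) * x ^ f.natDegree := by
    rw [invOf_eq_inv] at h1
    simpa [eval₂_id] using h1.symm
  have h3 : f.reverse.eval x⁻¹ = f.leadingCoeff + x⁻¹ * (f.reverse.divX.eval x⁻¹) := by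
    have h4 := congrArg (eval x⁻¹) (divX_mul_X_add f.reverse)
    rw [eval_add, eval_mul, eval_X, eval_C, coeff_zero_reverse] at h4
    rw [← h4]
    ring
  have hxi : ‖((x⁻¹ : ℚ) : ℚ_[p])‖ < 1 := by
    rw [Rat.cast_inv, norm_inv]
    exact inv_lt_one_of_one_lt₀ hx
  have h5 : ‖((f.reverse.divX.eval x⁻¹ : ℚ) : ℚ_[p])‖ ≤ 1 := by
    have h6 : ((f.reverse.divX.eval x⁻¹ : ℚ) : ℚ_[p]) ∈ PadicInt.subring p := by
      rw [eval_eq_sum_range, Rat.cast_sum]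
      refine Subring.sum_mem _ fun n _ => ?_
      rw [Rat.cast_mul, Rat.cast_pow]
      refine Subring.mul_mem _ ?_ (Subring.pow_mem _ hxi.le n)
      rw [coeff_divX, coeff_reverse]
      exact gd_coeff hg _
    exact h6
  have h7 : ‖((x⁻¹ * (f.reverse.divX.eval x⁻¹) : ℚ) : ℚ_[p])‖ < 1 := by
    rw [Rat.cast_mul, norm_mul]
    calc ‖((x⁻¹ : ℚ) : ℚ_[p])‖ * ‖((f.reverse.divX.eval x⁻¹ : ℚ) : ℚ_[p])‖ ≤ ‖((x⁻¹ : ℚ) : ℚ_[p])‖ * 1 :=
          mul_le_mul_of_nonneg_left h5 (norm_nonneg _)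
      _ < 1 := by rwa [mul_one]
  have h8 : ‖((f.reverse.eval x⁻¹ : ℚ) : ℚ_[p])‖ = 1 := by
    rw [h3, Rat.cast_add, ← hl]
    refine Padic.add_eq_max_of_ne ?_ |>.trans ?_
    · rw [hl]
      exact h7.ne'
    · rw [hl]
      exact max_eq_left h7.le
  rw [h2, Rat.cast_mul, Rat.cast_pow, norm_mul, norm_pow, h8, one_mul]

private theorem R2_prod {p : ℕ} [hp : Fact p.Prime] (s : Multiset ℚ) (h : ∀ r ∈ s, ‖(r : ℚ_[p])‖ = 1) :
    ‖((s.prod : ℚ) : ℚ_[p])‖ = 1 := by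
  induction s using Multiset.induction with
  | empty => simp
  | cons a s ih =>
    rw [Multiset.prod_cons, Rat.cast_mul, norm_mul, h a (Multiset.mem_cons_self a s), one_mul]
    exact ih fun r hr => h r (Multiset.mem_cons_of_mem hr)

/-- the value of a quadratic polynomial is divisible by `p`: the discriminant is a square modulo `p` -/
private theorem R2_disc {p : ℕ} [hp : Fact p.Prime] (a b c : ℤ) (t : ℚ) (ht : ‖(t : ℚ_[p])‖ ≤ 1)
    (h : ‖(((a : ℚ) * t ^ 2 + b * t + c : ℚ) : ℚ_[p])‖ < 1) : IsSquare (((b ^ 2 - 4 * a * c : ℤ)) : ZMod p) := by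
  have hw : (((2 * a * t + b : ℚ)) : ℚ_[p]) ∈ PadicInt.subring p := by
    have h1 : ((2 : ℤ) : ℚ_[p]) ∈ PadicInt.subring p := Padic.norm_int_le_one 2
    have h2 : ((a : ℤ) : ℚ_[p]) ∈ PadicInt.subring p := Padic.norm_int_le_one a
    have h3 : ((b : ℤ) : ℚ_[p]) ∈ PadicInt.subring p := Padic.norm_int_le_one b
    have h4 : (t : ℚ_[p]) ∈ PadicInt.subring p := ht
    have h5 := Subring.add_mem _ (Subring.mul_mem _ (Subring.mul_mem _ h1 h2) h4) h3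
    push_cast at h5 ⊢
    exact h5
  obtain ⟨W, hW⟩ : ∃ W : ℤ_[p], (W : ℚ_[p]) = ((2 * a * t + b : ℚ) : ℚ_[p]) := ⟨⟨_, hw⟩, rfl⟩
  have h1 : ‖W * W - (((b ^ 2 - 4 * a * c : ℤ)) : ℤ_[p])‖ < 1 := by
    have h2 : ((W * W - (((b ^ 2 - 4 * a * c : ℤ)) : ℤ_[p]) : ℤ_[p]) : ℚ_[p]) =
        ((4 * a : ℤ) : ℚ_[p]) * (((a : ℚ) * t ^ 2 + b * t + c : ℚ) : ℚ_[p]) := by
      rw [PadicInt.coe_sub, PadicInt.coe_mul, hW, PadicInt.coe_intCast]
      push_cast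
      ring
    rw [PadicInt.norm_def, h2, norm_mul]
    calc ‖((4 * a : ℤ) : ℚ_[p])‖ * ‖(((a : ℚ) * t ^ 2 + b * t + c : ℚ) : ℚ_[p])‖
        ≤ 1 * ‖(((a : ℚ) * t ^ 2 + b * t + c : ℚ) : ℚ_[p])‖ :=
          mul_le_mul_of_nonneg_right (Padic.norm_int_le_one _) (norm_nonneg _)
      _ < 1 := by rwa [one_mul]
  have h2 : PadicInt.toZMod (W * W - (((b ^ 2 - 4 * a * c : ℤ)) : ℤ_[p])) = 0 := by
    rw [← RingHom.mem_ker, PadicInt.ker_toZMod, IsLocalRing.mem_maximalIdeal]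
    exact PadicInt.mem_nonunits.2 h1
  rw [map_sub, map_mul, map_intCast, sub_eq_zero] at h2
  exact ⟨_, h2.symm⟩

theorem sq_of_dvd (f : ℚ[X]) (hf0 : f ≠ 0) (hdeg : Even f.natDegree) (a b c : ℤ) (lam : ℚ) (hl : lam ≠ 0)
    (L : Multiset ℚ[X])
    (hL : f ∣ (L.map (fun h => (C lam * (C (a : ℚ) * X ^ 2 + C (b : ℚ) * X + C (c : ℚ))).comp h)).prod) :
    ∃ M : ℕ, M ≠ 0 ∧ ∀ D : ℤ, Squarefree D → (∃ x y : ℚ, y ≠ 0 ∧ (D : ℚ) * y ^ 2 = f.eval x) →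
      ∀ p : ℕ, p.Prime → (p : ℤ) ∣ D → ¬ p ∣ M → IsSquare (((b ^ 2 - 4 * a * c : ℤ)) : ZMod p) := by
  obtain ⟨k, hk⟩ := hL
  set q : ℚ[X] := C lam * (C (a : ℚ) * X ^ 2 + C (b : ℚ) * X + C (c : ℚ)) with hq
  have hlc : f.leadingCoeff ≠ 0 := leadingCoeff_ne_zero.2 hf0
  refine ⟨gd f * gd k * gd q * (L.map gd).prod * (f.leadingCoeff.num.natAbs * f.leadingCoeff.den) *
    (lam.num.natAbs * lam.den), ?_, ?_⟩
  · have h1 : (L.map gd).prod ≠ 0 := by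
      refine Multiset.prod_ne_zero fun h => ?_
      obtain ⟨P, -, hP⟩ := Multiset.mem_map.1 h
      exact gd_ne P hP
    have h2 : f.leadingCoeff.num.natAbs ≠ 0 := Int.natAbs_ne_zero.2 (Rat.num_ne_zero.2 hlc)
    have h3 : lam.num.natAbs ≠ 0 := Int.natAbs_ne_zero.2 (Rat.num_ne_zero.2 hl)
    exact mul_ne_zero (mul_ne_zero (mul_ne_zero (mul_ne_zero (mul_ne_zero (gd_ne f) (gd_ne k)) (gd_ne q)) h1)
      (mul_ne_zero h2 (Rat.den_ne_zero _))) (mul_ne_zero h3 (Rat.den_ne_zero _))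
  rintro D hD ⟨x, y, hy, hxy⟩ p hp hpD hpM
  have : Fact p.Prime := ⟨hp⟩
  have g1 : ¬ p ∣ gd f := fun h => hpM (by
    refine Dvd.dvd.mul_right (Dvd.dvd.mul_right (Dvd.dvd.mul_right (Dvd.dvd.mul_right (Dvd.dvd.mul_right h _) _) _) _) _)
  have g2 : ¬ p ∣ gd k := fun h => hpM (by
    refine Dvd.dvd.mul_right (Dvd.dvd.mul_right (Dvd.dvd.mul_right (Dvd.dvd.mul_right (Dvd.dvd.mul_left h _) _) _) _) _)
  have g3 : ¬ p ∣ gd q := fun h => hpM (by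
    refine Dvd.dvd.mul_right (Dvd.dvd.mul_right (Dvd.dvd.mul_right (Dvd.dvd.mul_left h _) _) _) _)
  have g4 : ∀ P ∈ L, ¬ p ∣ gd P := fun P hP h => hpM (by
    refine Dvd.dvd.mul_right (Dvd.dvd.mul_right (Dvd.dvd.mul_left (h.trans (Multiset.dvd_prod ?_)) _) _) _
    exact Multiset.mem_map_of_mem gd hP)
  have g5 : ¬ p ∣ f.leadingCoeff.num.natAbs * f.leadingCoeff.den := fun h => hpM (by
    exact Dvd.dvd.mul_right (Dvd.dvd.mul_left h _) _)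
  have g6 : ¬ p ∣ lam.num.natAbs * lam.den := fun h => hpM (Dvd.dvd.mul_left h _)
  have hunit : ∀ r : ℚ, r ≠ 0 → ¬ p ∣ r.num.natAbs * r.den → ‖(r : ℚ_[p])‖ = 1 := by
    intro r hr h
    have h1 : ¬ p ∣ r.den := fun h2 => h (Dvd.dvd.mul_left h2 _)
    have h2 : ¬ (p : ℤ) ∣ r.num := fun h2 => h (Dvd.dvd.mul_right (Int.natCast_dvd.1 h2) _)
    have e1 : ‖((r.num : ℤ) : ℚ_[p])‖ = 1 := by
      refine le_antisymm (Padic.norm_int_le_one _) ?_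
      by_contra h3
      exact h2 ((Padic.norm_intCast_lt_one_iff).1 (not_le.1 h3))
    have e2 : ‖(((r.den : ℕ) : ℤ) : ℚ_[p])‖ = 1 := by
      refine le_antisymm (Padic.norm_int_le_one _) ?_
      by_contra h3
      exact h1 (by exact_mod_cast (Padic.norm_intCast_lt_one_iff).1 (not_le.1 h3))
    have e3 : (r : ℚ_[p]) = ((r.num : ℤ) : ℚ_[p]) / (((r.den : ℕ) : ℤ) : ℚ_[p]) := by
      conv_lhs => rw [← Rat.num_div_den r]
      push_cast
      rfl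
    rw [e3, norm_div, e1, e2, div_one]
  have hlc1 := hunit _ hlc g5
  have hlam1 := hunit _ hl g6
  have hD1 := R2_D hD hpD
  have hyp : (y : ℚ_[p]) ≠ 0 := by exact_mod_cast hy
  obtain ⟨ky, hky⟩ := R2_zpow (p := p) (y : ℚ_[p]) hyp
  have hpos : (0 : ℝ) < p := by exact_mod_cast hp.pos
  have hnorm : ‖((f.eval x : ℚ) : ℚ_[p])‖ = (p : ℝ) ^ (-1 + 2 * ky) := by
    rw [← hxy]
    push_cast
    rw [norm_mul, norm_pow, hD1, hky, ← zpow_natCast, ← zpow_mul, ← zpow_add₀ hpos.ne']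
    congr 1
    push_cast
    ring
  have hx1 : ‖(x : ℚ_[p])‖ ≤ 1 := by
    by_contra hx
    have hx' := not_le.1 hx
    have h1 := R2_big g1 hlc1 hx'
    have hx0 : (x : ℚ_[p]) ≠ 0 := by
      intro h
      rw [h, norm_zero] at hx'
      linarith
    obtain ⟨kx, hkx⟩ := R2_zpow (p := p) (x : ℚ_[p]) hx0
    rw [hnorm, hkx, ← zpow_natCast, ← zpow_mul] at h1
    have h2 := R2_inj h1
    obtain ⟨m, hm⟩ := hdeg
    rw [hm] at h2
    have h3 : kx * ((m + m : ℕ) : ℤ) = 2 * (kx * m) := by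
      push_cast
      ring
    rw [h3] at h2
    omega
  have hfx : ‖((f.eval x : ℚ) : ℚ_[p])‖ < 1 := by
    refine lt_of_le_of_ne (gd_eval g1 hx1) fun h => ?_
    rw [hnorm] at h
    have h1 : (p : ℝ) ^ (-1 + 2 * ky) = (p : ℝ) ^ (0 : ℤ) := by rw [h, zpow_zero]
    have h2 := R2_inj h1
    omega
  have hprod : ((L.map (fun h => q.comp h)).prod).eval x = ((L.map (fun h => q.eval (h.eval x))).prod) := by
    rw [eval_multiset_prod, Multiset.map_map]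
    congr 1
    refine Multiset.map_congr rfl fun h _ => ?_
    simp only [Function.comp_apply, eval_comp]
  have hex : ∃ h ∈ L, ‖((q.eval (h.eval x) : ℚ) : ℚ_[p])‖ < 1 := by
    by_contra hcon
    push Not at hcon
    have h1 := R2_prod (p := p) (L.map (fun h => q.eval (h.eval x))) (by
      intro r hr
      obtain ⟨h, hh, rfl⟩ := Multiset.mem_map.1 hr
      exact le_antisymm (gd_eval g3 (gd_eval (g4 h hh) hx1)) (hcon h hh))
    rw [← hprod, hk, eval_mul, Rat.cast_mul, norm_mul] at h1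
    have h2 : ‖((f.eval x : ℚ) : ℚ_[p])‖ * ‖((k.eval x : ℚ) : ℚ_[p])‖ < 1 := by
      calc ‖((f.eval x : ℚ) : ℚ_[p])‖ * ‖((k.eval x : ℚ) : ℚ_[p])‖ ≤ ‖((f.eval x : ℚ) : ℚ_[p])‖ * 1 :=
            mul_le_mul_of_nonneg_left (gd_eval g2 hx1) (norm_nonneg _)
        _ < 1 := by rwa [mul_one]
    linarith
  obtain ⟨h, hh, hlt⟩ := hex
  refine R2_disc a b c (h.eval x) (gd_eval (g4 h hh) hx1) ?_
  have h1 : q.eval (h.eval x) = lam * ((a : ℚ) * (h.eval x) ^ 2 + b * (h.eval x) + c) := by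
    rw [hq]
    simp only [eval_mul, eval_C, eval_add, eval_pow, eval_X]
  rw [h1, Rat.cast_mul, norm_mul, hlam1, one_mul] at hlt
  exact hlt

end QW
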