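import Pool.Agent.Lib.MP_10e784_agQW.R1
import Pool.Agent.Lib.MP_10e784_agQW.R2

/-!
# Twists with rational points, `f` with a quadratic factor which has a root in the fields of all the other factors
-/

set_option autoImplicit false

namespace QW

open Polynomial Filter

/-- an irreducible quadratic polynomial over `ℚ`: integral coefficients, the discriminant is no square -/
private theorem R3_quad (q : ℚ[X]) (hq : Irreducible q) (h2 : q.natDegree = 2) :
    ∃ (a b c : ℤ) (lam : ℚ), lam ≠ 0 ∧ q = C lam * (C (a : ℚ) * X ^ 2 + C (b : ℚ) * X + C (c : ℚ)) ∧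
      ¬ IsSquare (b ^ 2 - 4 * a * c) := by
  obtain ⟨m, hm⟩ : ∃ m : ℚ, m = (q.coeff 0).den * (q.coeff 1).den * (q.coeff 2).den := ⟨_, rfl⟩
  have hm0 : m ≠ 0 := by
    rw [hm]
    have h1 : ((q.coeff 0).den : ℚ) ≠ 0 := by exact_mod_cast Rat.den_ne_zero _
    have h2 : ((q.coeff 1).den : ℚ) ≠ 0 := by exact_mod_cast Rat.den_ne_zero _
    have h3 : ((q.coeff 2).den : ℚ) ≠ 0 := by exact_mod_cast Rat.den_ne_zero _
    exact mul_ne_zero (mul_ne_zero h1 h2) h3
  have hnd : ∀ r : ℚ, (r.num : ℚ) = r * r.den := fun r => (Rat.mul_den_eq_num r).symm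
  obtain ⟨c, hc⟩ : ∃ c : ℤ, (c : ℚ) = q.coeff 0 * m :=
    ⟨(q.coeff 0).num * (q.coeff 1).den * (q.coeff 2).den, by
      push_cast
      rw [hm, hnd (q.coeff 0)]
      ring⟩
  obtain ⟨b, hb⟩ : ∃ b : ℤ, (b : ℚ) = q.coeff 1 * m :=
    ⟨(q.coeff 1).num * (q.coeff 0).den * (q.coeff 2).den, by
      push_cast
      rw [hm, hnd (q.coeff 1)]
      ring⟩
  obtain ⟨a, ha⟩ : ∃ a : ℤ, (a : ℚ) = q.coeff 2 * m :=
    ⟨(q.coeff 2).num * (q.coeff 0).den * (q.coeff 1).den, by
      push_cast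
      rw [hm, hnd (q.coeff 2)]
      ring⟩
  have hqe : q = C m⁻¹ * (C (a : ℚ) * X ^ 2 + C (b : ℚ) * X + C (c : ℚ)) := by
    have e1 : q = C (q.coeff 0) + C (q.coeff 1) * X + C (q.coeff 2) * X ^ 2 := by
      conv_lhs => rw [q.as_sum_range_C_mul_X_pow, h2]
      rw [Finset.sum_range_succ, Finset.sum_range_succ, Finset.sum_range_succ, Finset.sum_range_zero]
      ring
    conv_lhs => rw [e1]
    rw [ha, hb, hc]
    have e2 : ∀ r : ℚ, C m⁻¹ * C (r * m) = C r := by
      intro r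
      rw [← C_mul]
      congr 1
      field_simp
    rw [mul_add, mul_add, ← mul_assoc, ← mul_assoc, e2, e2, e2]
    ring
  have ha0 : (a : ℚ) ≠ 0 := by
    rw [ha]
    refine mul_ne_zero ?_ hm0
    have h3 : q.leadingCoeff ≠ 0 := leadingCoeff_ne_zero.2 hq.ne_zero
    rwa [leadingCoeff, h2] at h3
  refine ⟨a, b, c, m⁻¹, inv_ne_zero hm0, hqe, ?_⟩
  rintro ⟨s, hs⟩
  have hs' : (b : ℚ) ^ 2 - 4 * a * c = s * s := by exact_mod_cast hs
  have hroot : q.IsRoot ((-b + s) / (2 * a)) := by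
    rw [IsRoot.def, hqe]
    simp only [eval_mul, eval_C, eval_add, eval_pow, eval_X]
    have : (a : ℚ) * ((-b + s) / (2 * a)) ^ 2 + b * ((-b + s) / (2 * a)) + c = 0 := by
      field_simp
      linear_combination (-1 : ℚ) * hs'
    rw [this, mul_zero]
  have h3 := degree_eq_one_of_irreducible_of_root hq hroot
  rw [degree_eq_natDegree hq.ne_zero, h2] at h3
  norm_num at h3

private theorem R3_prod (q : ℚ[X]) (H : ℚ[X] → ℚ[X]) (s : Multiset ℚ[X]) (h : ∀ r ∈ s, r ∣ q.comp (H r)) :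
    s.prod ∣ (s.map (fun r => q.comp (H r))).prod := by
  induction s using Multiset.induction with
  | empty => simp
  | cons a s ih =>
    rw [Multiset.prod_cons, Multiset.map_cons, Multiset.prod_cons]
    exact mul_dvd_mul (h a (Multiset.mem_cons_self a s)) (ih fun r hr => h r (Multiset.mem_cons_of_mem hr))

/-- If some irreducible quadratic polynomial has a root in the fields of all the irreducible factors of `f`, then almost
no quadratic twist of `y² = f(x)` has a rational point with `y ≠ 0`. -/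
theorem noN_o (f : ℚ[X]) (hf0 : f ≠ 0) (hdeg : Even f.natDegree) (q : ℚ[X]) (hq : Irreducible q)
    (h2 : q.natDegree = 2) (hall : ∀ r : ℚ[X], Irreducible r → r ∣ f → ∃ h : ℚ[X], r ∣ q.comp h) :
    Tendsto (fun N : ℕ => (Nat.card {D : ℤ // Squarefree D ∧ |D| ≤ (N : ℤ) ∧ ∃ x y : ℚ, y ≠ 0 ∧
      (D : ℚ) * y ^ 2 = f.eval x} : ℝ) / N) atTop (nhds 0) := by
  classical
  obtain ⟨a, b, c, lam, hl, hqe, hns⟩ := R3_quad q hq h2
  have hex : ∀ r : ℚ[X], ∃ h : ℚ[X], Irreducible r → r ∣ f → r ∣ q.comp h := by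
    intro r
    by_cases h : Irreducible r ∧ r ∣ f
    · obtain ⟨k, hk⟩ := hall r h.1 h.2
      exact ⟨k, fun _ _ => hk⟩
    · exact ⟨0, fun h1 h3 => absurd ⟨h1, h3⟩ h⟩
  choose H hH using hex
  have hprod := R3_prod q H (UniqueFactorizationMonoid.normalizedFactors f) (fun r hr =>
    hH r (UniqueFactorizationMonoid.irreducible_of_normalized_factor r hr)
      (UniqueFactorizationMonoid.dvd_of_mem_normalizedFactors hr))
  have hfd : f ∣ (UniqueFactorizationMonoid.normalizedFactors f).prod :=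
    (UniqueFactorizationMonoid.prod_normalizedFactors hf0).symm.dvd
  have hL := hfd.trans hprod
  have hmap : ((UniqueFactorizationMonoid.normalizedFactors f).map (fun r => q.comp (H r))) =
      (((UniqueFactorizationMonoid.normalizedFactors f).map H).map (fun h => q.comp h)) := by
    rw [Multiset.map_map]
    rfl
  rw [hmap, hqe] at hL
  obtain ⟨M, hM, hsq⟩ := sq_of_dvd f hf0 hdeg a b c lam hl _ hL
  have h1 := res_o (b ^ 2 - 4 * a * c) hns M hM
  refine squeeze_zero (fun N => by positivity) (fun N => ?_) h1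
  refine div_le_div_of_nonneg_right ?_ (Nat.cast_nonneg N)
  have hfin : Finite {D : ℤ // Squarefree D ∧ |D| ≤ (N : ℤ) ∧
      ∀ p : ℕ, p.Prime → (p : ℤ) ∣ D → ¬ p ∣ M → IsSquare (((b ^ 2 - 4 * a * c : ℤ)) : ZMod p)} := by
    apply Set.Finite.to_subtype
    apply (Set.finite_Icc (-(N : ℤ)) N).subset
    rintro D ⟨-, h3, -⟩
    exact abs_le.1 h3
  have h3 := Nat.card_le_card_of_injective (fun D : {D : ℤ // Squarefree D ∧ |D| ≤ (N : ℤ) ∧ ∃ x y : ℚ, y ≠ 0 ∧
      (D : ℚ) * y ^ 2 = f.eval x} => (⟨D.1, D.2.1, D.2.2.1, fun p hp hpD hpM =>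
        hsq D.1 D.2.1 D.2.2.2 p hp hpD hpM⟩ : {D : ℤ // Squarefree D ∧ |D| ≤ (N : ℤ) ∧
      ∀ p : ℕ, p.Prime → (p : ℤ) ∣ D → ¬ p ∣ M → IsSquare (((b ^ 2 - 4 * a * c : ℤ)) : ZMod p)})) (by
        intro D D' h
        exact Subtype.ext (congrArg (fun z : {D : ℤ // Squarefree D ∧ |D| ≤ (N : ℤ) ∧
          ∀ p : ℕ, p.Prime → (p : ℤ) ∣ D → ¬ p ∣ M → IsSquare (((b ^ 2 - 4 * a * c : ℤ)) : ZMod p)} => z.1) h))
  exact_mod_cast h3

end QW
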