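import Pool.Agent.Lib.MP_10e784_ag.TW.TWRev

/-!
# Quadratic twists: from even degree to odd degree
-/

set_option autoImplicit false

namespace QW

open Polynomial Filter

private theorem R4_sqf {D D' k : ℤ} (hD : Squarefree D) (hD' : Squarefree D') (h : D * D' = k * k) : D = D' := by
  have h1 : D ∣ k ^ 2 := ⟨D', by rw [h, pow_two]⟩
  have h2 : D ∣ k := (hD.dvd_pow_iff_dvd two_ne_zero).mp h1
  obtain ⟨m, rfl⟩ := h2
  have h3 : D' = D * (m * m) := by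
    have h4 : D * D' = D * (D * (m * m)) := by rw [h]; ring
    exact mul_left_cancel₀ hD.ne_zero h4
  have h5 : IsUnit m := hD' m ⟨D, by rw [h3]; ring⟩
  have h6 : m * m = 1 := Int.isUnit_mul_self h5
  rw [h3, h6, mul_one]

private theorem R4_sub {c : ℚ} (hc : c ≠ 0) :
    {D : ℤ | Squarefree D ∧ ∃ y : ℚ, (D : ℚ) * y ^ 2 = c}.Subsingleton := by
  rintro D ⟨hD, y, hy⟩ D' ⟨hD', y', hy'⟩
  have hy0 : y ≠ 0 := by
    rintro rfl
    exact hc (by rw [← hy]; ring)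
  have hy0' : y' ≠ 0 := by
    rintro rfl
    exact hc (by rw [← hy']; ring)
  have hs : IsSquare (((D * D' : ℤ) : ℚ)) := by
    refine ⟨c / (y * y'), ?_⟩
    have e1 : (D : ℚ) = c / y ^ 2 := by
      rw [← hy]; field_simp
    have e2 : (D' : ℚ) = c / y' ^ 2 := by
      rw [← hy']; field_simp
    push_cast
    rw [e1, e2]
    field_simp
  rw [Rat.isSquare_intCast_iff] at hs
  obtain ⟨k, hk⟩ := hs
  exact R4_sqf hD hD' hk

private theorem R4_comp (f : ℚ[X]) (hf : Squarefree f) (t : ℚ) : Squarefree (f.comp (X + C t)) := by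
  rintro d ⟨e, he⟩
  have h1 : f = (d.comp (X - C t)) * (d.comp (X - C t)) * (e.comp (X - C t)) := by
    have h2 : (f.comp (X + C t)).comp (X - C t) = f := by
      rw [comp_assoc]
      simp
    rw [← mul_comp, ← mul_comp, ← he, h2]
  have h2 : IsUnit (d.comp (X - C t)) := hf _ ⟨_, h1⟩
  have h3 := natDegree_eq_zero_of_isUnit h2
  rw [natDegree_comp, natDegree_X_sub_C, mul_one] at h3
  have h4 : d ≠ 0 := by
    rintro rfl
    rw [zero_comp] at h2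
    exact not_isUnit_zero h2
  rw [eq_C_of_natDegree_eq_zero h3] at h4 ⊢
  exact isUnit_C.2 (isUnit_iff_ne_zero.2 fun h => h4 (by rw [h, C_0]))

private theorem R4_fin (N : ℕ) (P : ℤ → Prop) : {D : ℤ | Squarefree D ∧ |D| ≤ (N : ℤ) ∧ P D}.Finite :=
  (Set.finite_Icc (-(N : ℤ)) N).subset fun _ hD => abs_le.1 hD.2.1

/-- a polynomial of odd degree has a model of even degree, one more, with a rational root; the sets of twists with
other rational points differ by at most one element -/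
theorem odd_model (f : ℚ[X]) (hf : Squarefree f) (hodd : Odd f.natDegree) :
    ∃ F : ℚ[X], Squarefree F ∧ F.natDegree = f.natDegree + 1 ∧ (∃ x : ℚ, F.eval x = 0) ∧
      ∀ N : ℕ, Nat.card {D : ℤ // Squarefree D ∧ |D| ≤ (N : ℤ) ∧ ∃ x y : ℚ, y ≠ 0 ∧ (D : ℚ) * y ^ 2 = f.eval x} ≤
        Nat.card {D : ℤ // Squarefree D ∧ |D| ≤ (N : ℤ) ∧ ∃ x y : ℚ, y ≠ 0 ∧ (D : ℚ) * y ^ 2 = F.eval x} + 1 := by
  have hf0 : f ≠ 0 := hf.ne_zero
  obtain ⟨t, ht⟩ : ∃ t : ℚ, f.eval t ≠ 0 := by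
    by_contra h
    push Not at h
    exact hf0 (Polynomial.funext fun x => by rw [h x, eval_zero])
  obtain ⟨g, hg⟩ : ∃ g : ℚ[X], g = f.comp (X + C t) := ⟨_, rfl⟩
  have hgs : Squarefree g := by
    rw [hg]
    exact R4_comp f hf t
  have hgd : g.natDegree = f.natDegree := by
    rw [hg, natDegree_comp, natDegree_X_add_C, mul_one]
  have hg0 : g.coeff 0 ≠ 0 := by
    rw [coeff_zero_eq_eval_zero, hg, eval_comp]
    simpa using ht
  have hge : ∀ x : ℚ, g.eval (x - t) = f.eval x := by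
    intro x
    rw [hg, eval_comp]
    simp
  refine ⟨X * g.reverse, TW.rev_sqf g hgs hg0, ?_, ⟨0, by simp⟩, fun N => ?_⟩
  · rw [TW.rev_deg g hg0, hgd]
  have key : ∀ D : ℤ, ∀ x y : ℚ, x ≠ t → y ≠ 0 → (D : ℚ) * y ^ 2 = f.eval x →
      ∃ x y : ℚ, y ≠ 0 ∧ (D : ℚ) * y ^ 2 = (X * g.reverse).eval x := by
    intro D x y hx hy h
    have hz : x - t ≠ 0 := sub_ne_zero.2 hx
    obtain ⟨m, hm⟩ := hodd
    have hinv : Invertible (x - t) := invertibleOfNonzero hz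
    have h1 := Polynomial.eval₂_reverse_mul_pow (RingHom.id ℚ) (x - t) g
    rw [invOf_eq_inv, hgd] at h1
    have h2 : g.reverse.eval (x - t)⁻¹ * (x - t) ^ f.natDegree = f.eval x := by
      rw [← hge x]
      simpa [eval₂_id] using h1
    refine ⟨(x - t)⁻¹, y * ((x - t)⁻¹) ^ (m + 1), mul_ne_zero hy (pow_ne_zero _ (inv_ne_zero hz)), ?_⟩
    rw [eval_mul, eval_X, mul_pow, ← mul_assoc, h, ← h2, hm]
    have h3 : (x - t) ^ (2 * m + 1) * (((x - t)⁻¹) ^ (m + 1)) ^ 2 = (x - t)⁻¹ := by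
      have h4 : (x - t) * (x - t)⁻¹ = 1 := mul_inv_cancel₀ hz
      calc (x - t) ^ (2 * m + 1) * (((x - t)⁻¹) ^ (m + 1)) ^ 2
          = ((x - t) * (x - t)⁻¹) ^ (2 * m + 1) * (x - t)⁻¹ := by rw [mul_pow]; ring
        _ = (x - t)⁻¹ := by rw [h4, one_pow, one_mul]
    rw [mul_assoc, h3]
    ring
  have e : ∀ P : ℤ → Prop, Nat.card {D : ℤ // Squarefree D ∧ |D| ≤ (N : ℤ) ∧ P D} =
      {D : ℤ | Squarefree D ∧ |D| ≤ (N : ℤ) ∧ P D}.ncard := fun P => rfl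
  rw [e, e]
  have hS := R4_sub ht
  have hSfin : {D : ℤ | Squarefree D ∧ ∃ y : ℚ, (D : ℚ) * y ^ 2 = f.eval t}.Finite := hS.finite
  have hSf : Finite {D : ℤ | Squarefree D ∧ ∃ y : ℚ, (D : ℚ) * y ^ 2 = f.eval t} := hSfin.to_subtype
  have h1 : {D : ℤ | Squarefree D ∧ ∃ y : ℚ, (D : ℚ) * y ^ 2 = f.eval t}.ncard ≤ 1 :=
    Set.ncard_le_one_iff_subsingleton.2 hS
  refine le_trans (Set.ncard_le_ncard ?_ ((R4_fin N _).union hSfin)) ((Set.ncard_union_le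
    {D : ℤ | Squarefree D ∧ |D| ≤ (N : ℤ) ∧ ∃ x y : ℚ, y ≠ 0 ∧ (D : ℚ) * y ^ 2 = (X * g.reverse).eval x}
    {D : ℤ | Squarefree D ∧ ∃ y : ℚ, (D : ℚ) * y ^ 2 = f.eval t}).trans (Nat.add_le_add_left h1 _))
  rintro D ⟨hD, hN, x, y, hy, h⟩
  by_cases hx : x = t
  · right
    rw [hx] at h
    exact ⟨hD, y, h⟩
  · left
    exact ⟨hD, hN, key D x y hx hy h⟩

end QW
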