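import Pool.Agent.Lib.MP_10e784_agQW.R3
import Pool.Agent.Lib.MP_10e784_agQW.R4
import Pool.Agent.Lib.MP_10e784_agTR.Fin
import Pool.Agent.Lib.MP_10e784_agN2.N10

/-!
# Almost no quadratic twist has a further rational point: all polynomials
-/

set_option autoImplicit false

namespace QW

open Polynomial Filter

/-- the statement for one polynomial: almost no twist has a rational point with `y ≠ 0` -/
def Thin (f : ℚ[X]) : Prop :=
  Tendsto (fun N : ℕ => (Nat.card {D : ℤ // Squarefree D ∧ |D| ≤ (N : ℤ) ∧ ∃ x y : ℚ, y ≠ 0 ∧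
    (D : ℚ) * y ^ 2 = f.eval x} : ℝ) / N) atTop (nhds 0)

private theorem R5_card (N : ℕ) (P Q : ℤ → Prop) (h : ∀ D, P D → Q D) :
    Nat.card {D : ℤ // Squarefree D ∧ |D| ≤ (N : ℤ) ∧ P D} ≤ Nat.card {D : ℤ // Squarefree D ∧ |D| ≤ (N : ℤ) ∧ Q D} := by
  have e : ∀ P : ℤ → Prop, Nat.card {D : ℤ // Squarefree D ∧ |D| ≤ (N : ℤ) ∧ P D} =
      {D : ℤ | Squarefree D ∧ |D| ≤ (N : ℤ) ∧ P D}.ncard := fun P => rfl
  rw [e, e]
  refine Set.ncard_le_ncard (fun D hD => ⟨hD.1, hD.2.1, h D hD.2.2⟩) ?_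
  exact (Set.finite_Icc (-(N : ℤ)) N).subset fun _ hD => abs_le.1 hD.2.1

private theorem R5_all (N : ℕ) (P : ℤ → Prop) :
    (Nat.card {D : ℤ // Squarefree D ∧ |D| ≤ (N : ℤ) ∧ P D} : ℝ) ≤ 2 * N + 1 := by
  have e : Nat.card {D : ℤ // Squarefree D ∧ |D| ≤ (N : ℤ) ∧ P D} =
      {D : ℤ | Squarefree D ∧ |D| ≤ (N : ℤ) ∧ P D}.ncard := rfl
  rw [e]
  have h1 : {D : ℤ | Squarefree D ∧ |D| ≤ (N : ℤ) ∧ P D}.ncard ≤ ((Finset.Icc (-(N : ℤ)) N : Finset ℤ) : Set ℤ).ncard := by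
    refine Set.ncard_le_ncard ?_ (Finset.finite_toSet _)
    intro D hD
    rw [Finset.coe_Icc]
    exact abs_le.1 hD.2.1
  rw [Set.ncard_coe_finset, Int.card_Icc] at h1
  have h2 : ((N : ℤ) + 1 - -(N : ℤ)).toNat = 2 * N + 1 := by omega
  rw [h2] at h1
  exact_mod_cast h1

/-- the case of even degree without rational root -/
private theorem R5_noroot (f : ℚ[X]) (hf : Squarefree f) (hdeg : Even f.natDegree) (h6 : 6 ≤ f.natDegree)
    (hroot : ∀ x : ℚ, f.eval x ≠ 0) : Thin f := by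
  by_cases hn : ∀ q : ℚ[X], Irreducible q → q ∣ f → q.natDegree = 2 →
      ∃ r : ℚ[X], Irreducible r ∧ r ∣ f ∧ ∀ h : ℚ[X], ¬ r ∣ q.comp h
  · obtain ⟨A, δ, hδ, hA, -⟩ := EN.cor3 f hf hdeg h6 hroot hn
    have hlim : Tendsto (fun N : ℕ => 3 * |A| / Real.log N ^ δ) atTop (nhds 0) :=
      ((tendsto_rpow_atTop hδ).comp (Real.tendsto_log_atTop.comp tendsto_natCast_atTop_atTop)).const_div_atTop _
    refine squeeze_zero' (Eventually.of_forall fun N => by positivity) ?_ hlim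
    refine eventually_atTop.2 ⟨2, fun N hN => ?_⟩
    have hN2 : (2 : ℝ) ≤ N := by exact_mod_cast hN
    have hN0 : (0 : ℝ) < N := by linarith
    have hl : 0 < Real.log N := Real.log_pos (by linarith)
    have hlp : 0 < Real.log N ^ δ := Real.rpow_pos_of_pos hl δ
    rw [div_le_iff₀ hN0]
    have h1 : (Nat.card {D : ℤ // Squarefree D ∧ |D| ≤ (N : ℤ) ∧ ∃ x y : ℚ, y ≠ 0 ∧ (D : ℚ) * y ^ 2 = f.eval x} : ℝ) ≤
        (Nat.card {D : ℤ // Squarefree D ∧ |D| ≤ (N : ℤ) ∧ ∃ x y : ℚ, (D : ℚ) * y ^ 2 = f.eval x} : ℝ) := by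
      have h0 := R5_card N (fun D => ∃ x y : ℚ, y ≠ 0 ∧ (D : ℚ) * y ^ 2 = f.eval x)
        (fun D => ∃ x y : ℚ, (D : ℚ) * y ^ 2 = f.eval x) (by
          rintro D ⟨x, y, -, h⟩
          exact ⟨x, y, h⟩)
      exact_mod_cast h0
    refine h1.trans ((hA N hN).trans ?_)
    have h2 := R5_all N (fun D => EL.ELS f D)
    calc A / Real.log N ^ δ * (Nat.card {D : ℤ // Squarefree D ∧ |D| ≤ (N : ℤ) ∧ EL.ELS f D} : ℝ)
        ≤ |A| / Real.log N ^ δ * (Nat.card {D : ℤ // Squarefree D ∧ |D| ≤ (N : ℤ) ∧ EL.ELS f D} : ℝ) :=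
          mul_le_mul_of_nonneg_right (div_le_div_of_nonneg_right (le_abs_self A) hlp.le) (Nat.cast_nonneg _)
      _ ≤ |A| / Real.log N ^ δ * (3 * N) := by
          refine mul_le_mul_of_nonneg_left (h2.trans (by linarith)) (by positivity)
      _ = 3 * |A| / Real.log N ^ δ * N := by ring
  · push Not at hn
    obtain ⟨q, hq, -, h2, hall⟩ := hn
    exact noN_o f hf.ne_zero hdeg q hq h2 hall

/-- even degree: from the case of degree at least eight with a rational root -/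
theorem even_o (hV : ∀ f : ℚ[X], Squarefree f → Even f.natDegree → 8 ≤ f.natDegree → (∃ x : ℚ, f.eval x = 0) → Thin f)
    (f : ℚ[X]) (hf : Squarefree f) (hdeg : Even f.natDegree) (h6 : 6 ≤ f.natDegree)
    (h : 8 ≤ f.natDegree ∨ ((∀ r s : ℚ, f.eval r = 0 → f.eval s = 0 → r ≠ s →
      ∃ q : ℚ[X], Irreducible q ∧ q ∣ f ∧ Odd q.natDegree ∧ q.eval r ≠ 0 ∧ q.eval s ≠ 0) ∧
      ∀ r s : ℚ, f.eval r = 0 → f.eval s = 0 → r ≠ s → ∀ c : ℚ, c ≠ 0 → ∀ h : ℚ[X],
        ¬ f ∣ (X - C r) * (X - C s) * (C c * (X - C r) * (X - C s) - h ^ 2))) : Thin f := by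
  by_cases hroot : ∀ x : ℚ, f.eval x ≠ 0
  · exact R5_noroot f hf hdeg h6 hroot
  · push Not at hroot
    rcases h with h8 | ⟨hK, hH⟩
    · exact hV f hf hdeg h8 hroot
    · exact TR.all_o f hf hdeg h6 hK hH

/-- all polynomials of degree at least seven: from the case of even degree at least eight with a rational root -/
theorem seven_o (hV : ∀ f : ℚ[X], Squarefree f → Even f.natDegree → 8 ≤ f.natDegree → (∃ x : ℚ, f.eval x = 0) → Thin f)
    (f : ℚ[X]) (hf : Squarefree f) (h7 : 7 ≤ f.natDegree) : Thin f := by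
  rcases Nat.even_or_odd f.natDegree with hdeg | hodd
  · have h8 : 8 ≤ f.natDegree := by
      obtain ⟨m, hm⟩ := hdeg
      omega
    exact even_o hV f hf hdeg (by omega) (Or.inl h8)
  · obtain ⟨F, hF, hFd, hFr, hcount⟩ := odd_model f hf hodd
    have h1 : Thin F := hV F hF (by rw [hFd]; exact hodd.add_one) (by omega) hFr
    have h2 : Tendsto (fun N : ℕ => (1 : ℝ) / N) atTop (nhds 0) := tendsto_const_div_atTop_nhds_zero_nat 1
    have h3 := Tendsto.add h1 h2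
    rw [add_zero] at h3
    refine squeeze_zero (fun N => by positivity) (fun N => ?_) h3
    rw [← add_div]
    refine div_le_div_of_nonneg_right ?_ (Nat.cast_nonneg N)
    exact_mod_cast hcount N

end QW
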